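import Pool.Agent.Helper38.AutTower

/-!
# Automorphism towers of the groups `Hol(Z/n) × P`

For a finite group `P` and a squarefree number `n ≠ 1` all of whose prime factors are admissible
for `P`, the automorphism tower of `Hol(Z/n) × P` is described: it grows for ever, or it becomes
constant; it never runs into a longer cycle.  Sufficient conditions for infinitely many groups
follow.
-/

set_option autoImplicit false

namespace Pool.Agent.Results.MP_e0e6b6_al.TowerDichotomy

open Pool.Agent.Helper38.AutTower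

/-- `A` is the automorphism tower of `Hol n × P`. -/
theorem result (P : Type) [Group P] [Finite P] :
    {q : ℕ | Adm q P}.Infinite ∧
    ∀ n : ℕ, Squarefree n → n ≠ 1 → (∀ q ∈ n.primeFactors, Adm q P) →
      (∃ (A : ℕ → Type) (_ : ∀ i, Group (A i)), IsTower A (Hol n × P)) ∧
      ∀ (A : ℕ → Type) [∀ i, Group (A i)], IsTower A (Hol n × P) →
        ∃ (X : ℕ → Type) (_ : ∀ i, Group (X i)) (_ : ∀ i, Finite (X i)),
          Nonempty (X 0 ≃* P) ∧
          (∀ i, Nonempty (A i ≃* Hol n × X i) ∧ Nonempty (X (i + 1) ≃* Psi n (X i)) ∧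
            Nat.card (A (i + 1)) = Nat.card (A i)
              * (Nat.card (Subgroup.center (X i)) ^ (n.primeFactors.card - 1)
                * outCard (X i)) ∧
            (Subgroup.center (A (i + 1)) ≠ ⊥ ↔
              (∃ z ∈ Subgroup.center (X i), z ≠ 1 ∧ ∀ a : MulAut (X i), a z = z) ∨
              ∃ a ∈ Subgroup.center (MulAut (X i)), a ≠ 1 ∧
                ∀ z ∈ Subgroup.center (X i), a z = z)) ∧
          ((InfinitelyMany A ∧ (∀ i, 2 * Nat.card (A i) ≤ Nat.card (A (i + 3))) ∧
              (¬ n.Prime → ∀ i, 2 * Nat.card (A i) ≤ Nat.card (A (i + 1)))) ∨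
            ∃ (N : ℕ) (Q : Type) (_ : Group Q) (_ : Finite Q), IsComplete Q ∧
              ((∀ i, N ≤ i → Nonempty (A i ≃* Hol n × Q)) ∨
                (n.Prime ∧ (∀ K : Subgroup Q, K.index ≠ 2) ∧
                  ∀ i, N ≤ i → Nonempty (A i ≃* Hol n × (Multiplicative (ZMod 2) × Q))))) ∧
          ((∀ i, Subgroup.center (A i) ≠ ⊥ ∧
              (n.Prime → ∃ K : Subgroup (X i), K.index = 2 ∧ Subgroup.center (X i) ≤ K)) →
            InfinitelyMany A) ∧
          (∀ p : ℕ, p.Prime → 2 < Nat.card P → (∀ i, IsPGroup p (X i)) → InfinitelyMany A) := by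
  refine ⟨infinite_adm P, fun n hn hn1 hadm => ⟨?_, fun A _ hA => tower_sq P n hn hn1 hadm A hA⟩⟩
  have : NeZero n := ⟨hn.ne_zero⟩
  exact exists_tower (Hol n × P)

end Pool.Agent.Results.MP_e0e6b6_al.TowerDichotomy
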